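import Pool.Agent.X120.Gelf.Basic

/-!
# Gel'fond's conjecture in bounded degree: logarithms of the terms of exponential sequences

Let `u_{i,s} (n) = κ_{i,s} ^ n f_{i,s} (ρ_i ^ n)`, `0 ≤ i ≤ k`, `s < r`, where the `ρ_i` are nonzero
algebraic numbers, `|ρ_i| ≠ 1`, the `κ_{i,s}` are nonzero complex numbers (algebraic ones in the conjecture of
Gel'fond), and `f_{i,s}` are polynomials with algebraic coefficients, `f_{i,s} (0) ≠ 0`, such that for each `i` the polynomials `f_{i,s}`, `s < r`, are multiplicatively independent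
modulo constants. Let `α_1, ..., α_l` be algebraic numbers which are linearly independent over `ℚ`. For all but
`C T ^ k log T` of the `T ^ (k + 1)` tuples `(n_0, ..., n_k)` of positive integers up to `T`, where `C` does not
depend on the `α_j`, the `l + (k + 1) r` numbers

`e ^ α_1, ..., e ^ α_l` and `log u_{i,s} (n_i)` (for any choice of the logarithms)

satisfy no nonzero polynomial relation of degree at most `δ` over a number field of degree at most `d`.

Examples: the Mersenne numbers `2 ^ n - 1`, the Fibonacci numbers `F_n`, blocks of consecutive terms,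
such as `F_n, F_{n+1}, ..., F_{n+r-1}`, and combinations such as `2 ^ n - 1, 2 ^ n + 1, 2 ^ n + 3`. In the
case `k = 0` there are at most `C log T` exceptional `n ≤ T`. If the sequences do not depend on `i`, then
the tuples with `n_0 = n_1` are exceptional, and so one cannot replace `T ^ k` by a smaller power of `T`.

The proof: `log (1 - γ ρ ^ (i + j))` for large `i` and `j ≤ c i` is a value of the logarithm at a point
`1 + β / ξ` close to `1` where `ξ = ρ ^ (- i)` is large compared to the height of `β = - γ ρ ^ j`, and so the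
windows `[i, (1 + c) i]` contain a bounded number of exceptional indices even over unknown constants
(`Pool.Agent.Y916.Al.windowH`, starting library), in particular over the constants `e ^ α_j`, which are
algebraically independent (Lindemann-Weierstrass, `Pool.Agent.H297R2`). Logarithmically many of these
windows cover the integers up to `T`. Tuples are treated by induction.
-/

set_option autoImplicit false

open Polynomial

namespace Pool.Agent.Results.MP_c82530_nt.ExponentialSequences

/-- The polynomials `f_s` are multiplicatively independent modulo constants: the products of powers of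
the `f_s` with different exponents are not proportional. -/
def MulIndep {r : ℕ} (f : Fin r → ℂ[X]) : Prop :=
  ∀ (a b : Fin r → ℕ) (c : ℂ), ∏ s, f s ^ a s = C c * ∏ s, f s ^ b s → a = b

/-- The numbers `x` satisfy no nonzero polynomial relation of degree at most `δ` over a number field of degree at
most `d`. -/
def NoRelation (δ d : ℕ) {ι : Type} (x : ι → ℂ) : Prop :=
  ∀ L : IntermediateField ℚ ℂ, FiniteDimensional ℚ L → Module.finrank ℚ L ≤ d →
    ∀ P : MvPolynomial ι L, P ≠ 0 → P.totalDegree ≤ δ → MvPolynomial.aeval x P ≠ 0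

theorem result {k r : ℕ} (f : Fin (k + 1) → Fin r → ℂ[X])
    (hf : ∀ i s m, IsAlgebraic ℚ ((f i s).coeff m)) (hf0 : ∀ i s, (f i s).eval 0 ≠ 0)
    (hind : ∀ i, MulIndep (f i)) (ρ : Fin (k + 1) → ℂ) (hρ : ∀ i, IsAlgebraic ℚ (ρ i))
    (hρ0 : ∀ i, ρ i ≠ 0) (hρ1 : ∀ i, ‖ρ i‖ ≠ 1) (κ : Fin (k + 1) → Fin r → ℂ)
    (hκ0 : ∀ i s, κ i s ≠ 0) (l δ d : ℕ) :
    ∃ C : ℝ, ∀ α : Fin l → ℂ, (∀ j, IsAlgebraic ℚ (α j)) → LinearIndependent ℚ α → ∀ T : ℕ, 2 ≤ T →
      ({n : Fin (k + 1) → ℕ | (∀ i, 1 ≤ n i ∧ n i ≤ T) ∧ ¬ ∀ x : Fin (k + 1) × Fin r → ℂ,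
        (∀ p, Complex.exp (x p) = κ p.1 p.2 ^ n p.1 * (f p.1 p.2).eval (ρ p.1 ^ n p.1)) →
          NoRelation δ d (Sum.elim (fun j => Complex.exp (α j)) x)}.ncard : ℝ) ≤
            C * (T : ℝ) ^ k * Real.log T := by
  classical
  obtain ⟨C, hC⟩ := X120.Rec.fullB f hf hf0 hind ρ hρ hρ0 hρ1 κ hκ0 1 (d ^ d * δ) (d ^ d * δ) l 1 1
  refine ⟨C, fun α hα hli T hT => ?_⟩
  have hu : AlgebraicIndependent ℚ fun j => Complex.exp (α j) :=
    (Pool.Agent.H297R2.exp_algebraicIndependent α hα hli).restrictScalars
      (algebraMap ℚ (algebraicClosure ℚ ℂ)).injective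
  obtain ⟨S, hS, hm⟩ := hC _ (fun j => Complex.exp (α j)) Finset.univ (by rw [Finset.card_univ, Fintype.card_fin])
    (Pool.Agent.Y916.Om.Dom.univ _) T hT
  refine le_trans ?_ hS
  rw [← Set.ncard_coe_finset]
  refine Nat.cast_le.2 (Set.ncard_le_ncard ?_ S.finite_toSet)
  rintro n ⟨hn, hx⟩
  push Not at hx
  obtain ⟨x, hx, hF⟩ := hx
  exact hm n hn x hx (X120.Gelf.badW_of hu hF)

end Pool.Agent.Results.MP_c82530_nt.ExponentialSequences
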