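import Pool.Agent.Results.MP_c82530_nt.NumberFieldTuples
import Pool.Agent.X174.WinRat

/-!
# Gel'fond's conjecture in bounded degree for ALL tuples of integers of a number field in cubes around thin sequences

Let `ω_0 ≠ 0, ω_1, …, ω_m` be algebraic numbers (for instance an integral basis of a number field), `θ_1, …, θ_r` distinct
algebraic numbers. For all `k ≥ 1`, `l`, `δ`, `d` there is `c > 0` such that for every sequence `v ≥ 1` of exponent of
convergence at most `τ` (for `v_i = i ^ a` this is `1 / a`, for `v_i = b ^ i` it is `0`) and `ρ < 1` there is ONE set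
`E ⊂ ℝ^(k (m + 1))` of Hausdorff dimension at most `(k (m + 1) - c + τ) / (1 - ρ)` such that for each `x` outside `E` and
ALL tuples of `ℚ`-linearly independent algebraic numbers `α_1, …, α_l`, for all but finitely many `i` and ALL `k`-tuples
`β_1, …, β_k` of elements of the lattice `ℤ ω_0 + … + ℤ ω_m` with coordinates in the cube with centre `x v_i` and side
`2 v_i ^ ρ`: the numbers `e^α_1, …, e^α_l` and any logarithms of the `k r` numbers `β_i + θ_s` satisfy no nontrivial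
relation of degree at most `δ` over a number field of degree at most `d`.

The number of exceptions is from the starting result `NumberFieldTuples`.
-/

set_option autoImplicit false

namespace Pool.Agent.Results.MP_c82530_nt.LatticeTuplesInCubes

open NumberFieldTuples (num Related)

/-- the exponent of convergence of the sequence `v` is at most `τ` -/
def ExpLe (v : ℕ → ℝ) (τ : ℝ) : Prop := ∀ t : ℝ, τ < t → Summable (fun n : ℕ => (v n) ^ (-t))

/-- **Theorem.** Let `ω_0 ≠ 0, ω_1, …, ω_m` be algebraic numbers, `θ_1, …, θ_r` distinct algebraic numbers, `k ≥ 1` and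
`l`, `δ`, `d` natural numbers. There is `0 < c < 1` such that for every sequence `v ≥ 1` of exponent of convergence at most
`τ ≥ 0` and every `ρ < 1` there is a set `E ⊂ ℝ^(k (m + 1))` of Hausdorff dimension at most
`(k (m + 1) - c + τ) / (1 - ρ)` such that for each `x` outside `E` and ALL tuples `α_1, …, α_l` of `ℚ`-linearly independent
algebraic numbers, for all but finitely many `i`: for ALL tuples `n` of integers with `|n_(a,b) - x_(a,b) v_i| ≤ v_i ^ ρ`
for all `a`, `b`, the numbers `e^α_1, …, e^α_l` and any logarithms of the `k r` numbers `n_(a,0) ω_0 + … + n_(a,m) ω_m + θ_s`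
satisfy no nontrivial relation of total degree at most `δ` over a number field of degree at most `d`. The sequences
`v_i = (i + 1) ^ a` and `v_i = b ^ i` have exponent of convergence at most `1 / a` and `0`. -/
theorem result :
    (∀ {m r : ℕ} (ω : Fin (m + 1) → ℂ), (∀ j, IsAlgebraic ℚ (ω j)) → ω 0 ≠ 0 →
      ∀ (θ : Fin r → ℂ), (∀ j, IsAlgebraic ℚ (θ j)) → Function.Injective θ → ∀ k l δ d : ℕ, 1 ≤ k →
      ∃ c : ℝ, 0 < c ∧ c < 1 ∧
      ∀ (v : ℕ → ℝ) (τ ρ : ℝ), (∀ i, 1 ≤ v i) → 0 ≤ τ → ExpLe v τ → ρ < 1 →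
      ∃ E : Set (Fin k × Fin (m + 1) → ℝ), dimH E ≤ ENNReal.ofReal ((k * (m + 1) - c + τ) / (1 - ρ)) ∧
        ∀ x : Fin k × Fin (m + 1) → ℝ, x ∉ E →
        ∀ α : Fin l → ℂ, (∀ i, IsAlgebraic ℚ (α i)) → LinearIndependent ℚ α → ∃ i₀ : ℕ, ∀ i : ℕ, i₀ ≤ i →
          ∀ n : Fin k → Fin (m + 1) → ℤ, (∀ a b, |(n a b : ℝ) - x (a, b) * v i| ≤ (v i) ^ ρ) →
            ¬ Related δ d α ω θ n) ∧
    (∀ a : ℝ, 0 < a → ExpLe (fun n : ℕ => ((n : ℝ) + 1) ^ a) (1 / a)) ∧
    (∀ b : ℝ, 1 < b → ExpLe (fun n : ℕ => b ^ n) 0) := by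
  refine ⟨fun {m r} ω hω hω0 θ hθ hinj k l δ d hk => ?_, fun κ hκ => Pool.Agent.Y854.GM.expLe_pow κ hκ,
    fun b hb => Pool.Agent.Y854.GM.expLe_geom b hb⟩
  obtain ⟨c1, hc1, C, h⟩ := NumberFieldTuples.result ω hω hω0 θ hθ hinj k l δ d
  set c : ℝ := min c1 (1 / 2) with hc
  have hc0 : 0 < c := lt_min hc1 (by norm_num)
  have hca : c ≤ c1 := min_le_left _ _
  have hcb : c ≤ 1 / 2 := min_le_right _ _
  have hk1 : (1 : ℝ) ≤ (k : ℝ) * (m + 1) := by
    have h1 : (1 : ℝ) ≤ k := by exact_mod_cast hk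
    have h2 : (0 : ℝ) ≤ m := Nat.cast_nonneg m
    nlinarith
  refine ⟨c, hc0, by linarith, fun v τ ρ hv hτ hE hρ => ?_⟩
  have hvp : ∀ i, 0 < v i := fun i => lt_of_lt_of_le one_pos (hv i)
  have hcount : Countable (Fin l → {z : ℂ // IsAlgebraic ℚ z}) := by
    have : Countable {z : ℂ // IsAlgebraic ℚ z} := (Algebraic.countable ℚ ℂ).to_subtype
    infer_instance
  have key : ∀ a : Fin l → {z : ℂ // IsAlgebraic ℚ z}, ∃ E : Set (Fin k × Fin (m + 1) → ℝ),
      dimH E ≤ ENNReal.ofReal ((k * (m + 1) - c + τ) / (1 - ρ)) ∧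
      (LinearIndependent ℚ (fun i => (a i : ℂ)) → ∀ x : Fin k × Fin (m + 1) → ℝ, x ∉ E →
        ∃ i₀ : ℕ, ∀ i : ℕ, i₀ ≤ i →
          ∀ n : Fin k → Fin (m + 1) → ℤ, (∀ a b, |(n a b : ℝ) - x (a, b) * v i| ≤ (v i) ^ ρ) →
            ¬ Related δ d (fun i => (a i : ℂ)) ω θ n) := by
    intro a
    by_cases hli : LinearIndependent ℚ (fun i => (a i : ℂ))
    swap
    · exact ⟨∅, by simp, fun h => absurd h hli⟩
    obtain ⟨E, hE1, hE2⟩ := Pool.Agent.X174.winFam (κ := Fin k × Fin (m + 1)) (Q := Fin k → Fin (m + 1) → ℤ)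
      (fun n p => (n p.1 p.2 : ℝ))
      (fun T => {n : Fin k → Fin (m + 1) → ℤ | (∀ i j, |n i j| ≤ ((⌊T⌋₊ : ℕ) : ℤ)) ∧
        Related δ d (fun i => (a i : ℂ)) ω θ n}) (s := (k : ℝ) * (m + 1) - c) (C := |C|) (by linarith)
      (fun T hT => by
        have hT1 : 1 ≤ ⌊T⌋₊ := Nat.le_floor (by exact_mod_cast hT)
        obtain ⟨h1, h2⟩ := h (fun i => (a i : ℂ)) (fun i => (a i).2) hli ⌊T⌋₊ hT1
        refine ⟨h1, h2.trans ?_⟩
        have hT1' : (1 : ℝ) ≤ (⌊T⌋₊ : ℝ) := by exact_mod_cast hT1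
        calc C * (⌊T⌋₊ : ℝ) ^ (((k * (m + 1) : ℕ) : ℝ) - c1)
            ≤ |C| * (⌊T⌋₊ : ℝ) ^ (((k * (m + 1) : ℕ) : ℝ) - c1) :=
              mul_le_mul_of_nonneg_right (le_abs_self C) (by positivity)
          _ ≤ |C| * (⌊T⌋₊ : ℝ) ^ ((k : ℝ) * (m + 1) - c) := by
              apply mul_le_mul_of_nonneg_left _ (abs_nonneg C)
              apply Real.rpow_le_rpow_of_exponent_le hT1'
              push_cast
              linarith
          _ ≤ |C| * T ^ ((k : ℝ) * (m + 1) - c) := by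
              apply mul_le_mul_of_nonneg_left _ (abs_nonneg C)
              exact Real.rpow_le_rpow (by positivity) (Nat.floor_le (by linarith)) (by linarith))
      hv hτ hE hρ
    refine ⟨E, hE1, fun _ x hx => ?_⟩
    obtain ⟨R, hR, hRc⟩ := Pool.Agent.X174.le_of_cube x
    obtain ⟨i₁, hi₁⟩ := hE2 x hx R hR
    refine ⟨i₁, fun i hi n hn hrel => ?_⟩
    have hcube : ∀ p : Fin k × Fin (m + 1), |(n p.1 p.2 : ℝ) - x p * v i| ≤ (v i) ^ ρ := fun p => hn p.1 p.2
    refine hi₁ i hi n hcube ⟨fun a b => ?_, hrel⟩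
    have h3 := hRc (fun p : Fin k × Fin (m + 1) => (n p.1 p.2 : ℝ)) (v i) ρ (hv i) hρ hcube (a, b)
    simp only at h3
    rw [Int.abs_eq_natAbs]
    have h4 : (((n a b).natAbs : ℕ) : ℝ) ≤ R * v i := by
      rw [Nat.cast_natAbs, Int.cast_abs]
      exact h3
    exact_mod_cast Nat.le_floor h4
  choose Es hEs1 hEs2 using key
  refine ⟨⋃ a, Es a, ?_, fun x hx α hα hli => ?_⟩
  · rw [dimH_iUnion]
    exact iSup_le hEs1
  · exact hEs2 (fun i => ⟨α i, hα i⟩) hli x (fun hm => hx (Set.mem_iUnion.2 ⟨_, hm⟩))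

end Pool.Agent.Results.MP_c82530_nt.LatticeTuplesInCubes
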