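import Pool.Agent.X120.Gelf.Basic

/-!
# Gel'fond's conjecture in bounded degree: logarithms of factorials, of Fermat numbers and of other sequences

We consider sequences `u (n)` of complex numbers of the following kinds.

* `u` has a multiplicative recurrence: for some `m` and algebraic numbers `z_0, ..., z_q` such that no `z_t`,
  `t ≠ 0`, is of the form `z_0 + i`, `i = 0, 1, 2, ...`, all sufficiently large `n` satisfy a relation
  `u (n) ^ {c_0} u (n+1) ^ {c_1} ⋯ u (n+m) ^ {c_m} = g (n + z_0) ^ {e_0} ⋯ (n + z_q) ^ {e_q}`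
  where `g` is in a fixed finitely generated group and where the exponents are integers which may depend on
  `n` in an arbitrary way, except that `c_m ≠ 0` and `e_0 ≠ 0`. Examples: `n !`, `(2 n) ! / (n !) ^ 2`,
  `n ^ n`, the superfactorials, the products `R (1) R (2) ⋯ R (n)` for nonconstant rational functions `R`
  with algebraic coefficients, and the products of such products.
* `u (n) = f (a (n))` where `a (n + 1) = P (a (n))` is an unbounded sequence of algebraic numbers, `f` and
  `P` are polynomials with algebraic coefficients, `f` not constant, `P` of degree at least two, and it is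
  not the case that `f` has only one zero `z` and `z` is the only preimage of `z` under `P`. Examples: the
  Fermat numbers `2 ^ (2 ^ n) + 1`, Sylvester's sequence `2, 3, 7, 43, 1807, ...`.
* `u (n) = κ ^ n f (ρ ^ n)` with `κ ≠ 0`, an algebraic number `ρ ≠ 0`, `|ρ| ≠ 1`, and a nonconstant polynomial
  `f` with algebraic coefficients, `f (0) ≠ 0`. Examples: `2 ^ n - 1`, the Fibonacci numbers.

Let `u_0, ..., u_k` be such sequences, equal or not, of the same or of different kinds, and let
`α_1, ..., α_l` be algebraic numbers which are linearly independent over `ℚ`. For all but `ε T ^ (k + 1)` of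
the tuples `(n_0, ..., n_k)` of positive integers up to `T`, `T ≥ T_0`, where `T_0` does not depend on the
`α_j`, the `l + k + 1` numbers

`e ^ α_1, ..., e ^ α_l` and `log u_0 (n_0), ..., log u_k (n_k)` (for any choice of the logarithms)

satisfy no nonzero polynomial relation of degree at most `δ` over a number field of degree at most `d`.

The proof: in a window `n + 1, ..., n + L` of fixed length the logarithms `log u (n + g)` are, up to a bounded
number of unknown constants, linear combinations with linearly independent vectors of coefficients of numbers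
`log (1 + β / ξ)`, where `ξ` is large and the algebraic numbers `β` are from a finite set. Hence the window
contains a bounded number of exceptional indices if `n` is large (`Pool.Agent.Y916.Om.win2` and
`Pool.Agent.Y916.Al.windowH`, starting library), also over the constants `e ^ α_j`, which are algebraically
independent (Lindemann-Weierstrass, `Pool.Agent.H297R2`). Since `L` is arbitrary, the exceptional indices have
density `0`. Tuples are treated by induction.
-/

set_option autoImplicit false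

open Polynomial

namespace Pool.Agent.Results.MP_c82530_nt.MixedSequences

/-- The sequence `u` has a multiplicative recurrence: there are `m`, nonzero complex numbers `γ_j` and
algebraic numbers `z_t` such that no `z_t`, `t ≠ 0`, is of the form `z_0 + i` with a natural number `i`, and
such that for every sufficiently large `n` the number `u n` is not zero and
`∏_{i ≤ m} u (n + i) ^ c_i = ∏_j γ_j ^ a_j ∏_t (n + z_t) ^ e_t` for some integers `c_i`, `a_j`, `e_t`
(which may depend on `n`) with `c_m ≠ 0` and `e_0 ≠ 0`. -/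
def MulRec (u : ℕ → ℂ) : Prop :=
  ∃ (m p q : ℕ) (γ : Fin p → ℂ) (z : Fin (q + 1) → ℂ) (n₀ : ℕ), (∀ j, γ j ≠ 0) ∧ (∀ t, IsAlgebraic ℚ (z t)) ∧
    (∀ t, t ≠ 0 → ∀ i : ℕ, z t ≠ z 0 + i) ∧ ∀ n ≥ n₀, u n ≠ 0 ∧
      ∃ (c : Fin (m + 1) → ℤ) (a : Fin p → ℤ) (e : Fin (q + 1) → ℤ), c (Fin.last m) ≠ 0 ∧ e 0 ≠ 0 ∧
        ∏ i : Fin (m + 1), u (n + i) ^ c i = (∏ j, γ j ^ a j) * ∏ t, ((n : ℂ) + z t) ^ e t

/-- The sequence `u` has the form `u (n) = f (a (n))`, where `f` and `P` are polynomials with algebraic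
coefficients, `f` is not constant, the degree of `P` is at least `2`, `a (0)` is algebraic,
`a (n + 1) = P (a (n))`, the sequence `a` is unbounded, and there is no `z` such that `z` is the only zero of
`f` and the only preimage of `z` under `P`. -/
def OrbitSeq (u : ℕ → ℂ) : Prop :=
  ∃ (f P : ℂ[X]) (a : ℕ → ℂ), (∀ i, IsAlgebraic ℚ (f.coeff i)) ∧ (∀ i, IsAlgebraic ℚ (P.coeff i)) ∧
    1 ≤ f.natDegree ∧ 2 ≤ P.natDegree ∧ (¬ ∃ z, (∀ x, f.eval x = 0 ↔ x = z) ∧ ∀ x, P.eval x = z ↔ x = z) ∧
    IsAlgebraic ℚ (a 0) ∧ (∀ n, a (n + 1) = P.eval (a n)) ∧ (∀ R : ℝ, ∃ n, R < ‖a n‖) ∧ ∀ n, u n = f.eval (a n)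

/-- The sequence `u` has the form `u (n) = κ ^ n f (ρ ^ n)`, where `f` is a nonconstant polynomial with algebraic
coefficients, `f (0) ≠ 0`, `ρ ≠ 0` is algebraic, `|ρ| ≠ 1`, and `κ ≠ 0`. -/
def ExpSeq (u : ℕ → ℂ) : Prop :=
  ∃ (f : ℂ[X]) (ρ κ : ℂ), (∀ i, IsAlgebraic ℚ (f.coeff i)) ∧ 1 ≤ f.natDegree ∧ f.eval 0 ≠ 0 ∧
    IsAlgebraic ℚ ρ ∧ ρ ≠ 0 ∧ ‖ρ‖ ≠ 1 ∧ κ ≠ 0 ∧ ∀ n, u n = κ ^ n * f.eval (ρ ^ n)

/-- The numbers `x` satisfy no nonzero polynomial relation of degree at most `δ` over a number field of degree at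
most `d`. -/
def NoRelation (δ d : ℕ) {ι : Type} (x : ι → ℂ) : Prop :=
  ∀ L : IntermediateField ℚ ℂ, FiniteDimensional ℚ L → Module.finrank ℚ L ≤ d →
    ∀ P : MvPolynomial ι L, P ≠ 0 → P.totalDegree ≤ δ → MvPolynomial.aeval x P ≠ 0

theorem result {k : ℕ} (u : Fin (k + 1) → ℕ → ℂ) (hu : ∀ i, MulRec (u i) ∨ OrbitSeq (u i) ∨ ExpSeq (u i))
    (l δ d : ℕ) (ε : ℝ) (hε : 0 < ε) :
    ∃ T₀ : ℕ, ∀ α : Fin l → ℂ, (∀ j, IsAlgebraic ℚ (α j)) → LinearIndependent ℚ α → ∀ T ≥ T₀,
      ({n : Fin (k + 1) → ℕ | (∀ i, 1 ≤ n i ∧ n i ≤ T) ∧ ¬ ∀ x : Fin (k + 1) → ℂ,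
        (∀ i, Complex.exp (x i) = u i (n i)) →
          NoRelation δ d (Sum.elim (fun j => Complex.exp (α j)) x)}.ncard : ℝ) ≤ ε * (T : ℝ) ^ (k + 1) := by
  classical
  obtain ⟨T₀, hT₀⟩ := X120.Soft.finalB (σ := Unit) (fun i n _ => u i n) (fun i => X120.Soft.rare_of (hu i))
    1 (d ^ d * δ) (d ^ d * δ) l 1 1 ε hε
  refine ⟨T₀, fun α hα hli T hT => ?_⟩
  have hu : AlgebraicIndependent ℚ fun j => Complex.exp (α j) :=
    (Pool.Agent.H297R2.exp_algebraicIndependent α hα hli).restrictScalars
      (algebraMap ℚ (algebraicClosure ℚ ℂ)).injective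
  obtain ⟨S, hS, hm⟩ := hT₀ _ (fun j => Complex.exp (α j)) Finset.univ (by rw [Finset.card_univ, Fintype.card_fin])
    (Pool.Agent.Y916.Om.Dom.univ _) T hT
  refine le_trans ?_ hS
  rw [← Set.ncard_coe_finset]
  refine Nat.cast_le.2 (Set.ncard_le_ncard ?_ S.finite_toSet)
  rintro n ⟨hn, hx⟩
  push Not at hx
  obtain ⟨x, hx, hF⟩ := hx
  refine hm n hn (fun p => x p.1) (fun p => hx p.1) (X120.Gelf.badW_of hu fun hno => hF ?_)
  refine X120.Gelf.NoRelation.reindex
    (Equiv.sumCongr (Equiv.refl (Fin l)) (Equiv.prodUnique (Fin (k + 1)) Unit)) ?_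
  have he : (fun i => (Sum.elim (fun j => Complex.exp (α j)) x : Fin l ⊕ Fin (k + 1) → ℂ)
      ((Equiv.sumCongr (Equiv.refl (Fin l)) (Equiv.prodUnique (Fin (k + 1)) Unit)) i)) =
      Sum.elim (fun j => Complex.exp (α j)) fun p : Fin (k + 1) × Unit => x p.1 := by
    funext i
    rcases i with i | i <;> rfl
  rw [he]
  exact hno

end Pool.Agent.Results.MP_c82530_nt.MixedSequences
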