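import Mathlib
import Pool.Agent.Y918.RP.Gel
import Pool.Agent.Y918.GB.Mat

/-!
# Exponentials, logarithms, and algebraic numbers with irrational exponents

Let `α_1, …, α_l` be algebraic numbers which are linearly independent over `ℚ`.  For every `j < n` let
`λ_{j,1}, …, λ_{j,k}` be logarithms of algebraic numbers which are linearly independent over `ℚ` (for
different `j` they may be the same), let `x_{j,1}, …, x_{j,d}` be complex numbers such that
`1, x_{j,1}, …, x_{j,d}` are linearly independent over `ℚ` (for instance `x_{j,i} = β^i`, where `β` is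
transcendental or algebraic of degree `> d`), and let `ζ_j` and `ξ_{j,i}` be arbitrary complex numbers,
for instance `0`.  For a matrix `a` with entries in a finite set `A` of rational numbers let

  `L_j = ∑_r a_{j,r} λ_{j,r}`,

so that `L_j` is a logarithm of a random product of algebraic numbers.  For every degree bound `D` there
are `k₀`, `C` and `δ > 0`, which depend only on `l`, `n`, `d` and `D`, such that for all `k ≥ k₀` and
every finite set `A` of rational numbers the numbers

  `e^{α_1}, …, e^{α_l}`,  `ζ_j + L_j`,  `exp (ξ_{j,i} + x_{j,i} L_j)`  (`1 ≤ j ≤ n`, `1 ≤ i ≤ d`)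

satisfy no nonzero polynomial relation with algebraic coefficients of degree at most `D` in each
variable, for all but `C |A|^(n k - δ k)` of the `|A|^(n k)` matrices `a`.  For `d = 0` this is the
starting result `RandomLogarithms`.  For `ζ = 0`, `ξ = 0` the numbers are `e^{α_i}`, `log γ_j` and
`γ_j ^ {x_{j,i}}`, where the `γ_j = exp L_j` are random products of given algebraic numbers.
-/

set_option autoImplicit false

namespace Pool.Agent.Results.MP_c82530_nt.RandomMultiplesOfLogarithms

/-- The numbers `x_i` satisfy no nonzero polynomial relation with algebraic coefficients of degree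
at most `D` in each of them. -/
def NoRelation (D : ℕ) {ι : Type} (x : ι → ℂ) : Prop :=
  ∀ p : MvPolynomial ι (algebraicClosure ℚ ℂ), (∀ i, p.degreeOf i ≤ D) →
    MvPolynomial.aeval x p = 0 → p = 0

/-- The logarithm `L_j = ∑_r a_{j,r} λ_{j,r}`. -/
noncomputable def comb {n k : ℕ} (lam : Fin n → Fin k → ℂ) (a : Fin n → Fin k → ℚ) (j : Fin n) : ℂ :=
  ∑ r : Fin k, (a j r : ℂ) * lam j r

/-- The numbers of the theorem: `exp α_i`, then `ζ_j + L_j` and `exp (ξ_{j,i} + x_{j,i} L_j)`. -/
noncomputable def numbers {l n d k : ℕ} (α : Fin l → ℂ) (x : Fin n → Fin d → ℂ)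
    (lam : Fin n → Fin k → ℂ) (ζ : Fin n → ℂ) (ξ : Fin n → Fin d → ℂ) (a : Fin n → Fin k → ℚ) :
    Fin l ⊕ (Fin n ⊕ Fin n × Fin d) → ℂ
  | Sum.inl i => Complex.exp (α i)
  | Sum.inr (Sum.inl j) => ζ j + comb lam a j
  | Sum.inr (Sum.inr (j, i)) => Complex.exp (ξ j i + x j i * comb lam a j)

open Module
open Pool.Agent.H301R2.SSE (QB mem_QB)
open Pool.Agent.W245 (IndepOver IndepT famExt famExt_finite)
open Pool.Agent.Y918.RP (expSpan expSpan_finite)
open Pool.Agent.Y918.GB (several log1)

/-- The exponent vectors of a pair. -/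
noncomputable def expoB {l n D : ℕ} {S : Type} [Fintype S]
    (s : (Fin l → Fin (D + 1)) × (Fin n → S → Fin (D + 1))) : (Fin l ⊕ (Fin n × S)) →₀ ℕ :=
  Finsupp.equivFunOnFinite.symm (Sum.elim (fun i => (s.1 i : ℕ)) (fun j => (s.2 j.1 j.2 : ℕ)))

theorem expoB_injective {l n D : ℕ} {S : Type} [Fintype S] :
    Function.Injective (expoB (l := l) (n := n) (D := D) (S := S)) := by
  intro s s' h
  refine Prod.ext (funext fun i => ?_) (funext fun j => funext fun e => ?_)
  · exact Fin.ext (DFunLike.congr_fun h (Sum.inl i))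
  · exact Fin.ext (DFunLike.congr_fun h (Sum.inr (j, e)))

theorem no_relation_blocks {l n D : ℕ} {S : Type} [Fintype S] [DecidableEq S] (α : Fin l → ℂ)
    (hα : ∀ i, IsAlgebraic ℚ (α i)) (hli : LinearIndependent ℚ α) (y : Fin n → S → ℂ)
    (h : IndepT (expSpan D α) (fun (j : Fin n) (e : S → Fin (D + 1)) => ∏ s, y j s ^ (e s : ℕ)))
    (p : MvPolynomial (Fin l ⊕ (Fin n × S)) QB) (hdeg : ∀ i, p.degreeOf i ≤ D)
    (h0 : MvPolynomial.aeval (Sum.elim (fun i => Complex.exp (α i)) (fun q => y q.1 q.2)) p = 0) :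
    p = 0 := by
  classical
  have hsupp : p.support ⊆
      (Finset.univ : Finset ((Fin l → Fin (D + 1)) × (Fin n → S → Fin (D + 1)))).image expoB := by
    intro M hM
    rw [Finset.mem_image]
    refine ⟨(fun i => ⟨M (Sum.inl i),
      Nat.lt_succ_of_le ((MvPolynomial.degreeOf_le_iff.1 (hdeg (Sum.inl i))) M hM)⟩,
      fun j e => ⟨M (Sum.inr (j, e)),
      Nat.lt_succ_of_le ((MvPolynomial.degreeOf_le_iff.1 (hdeg (Sum.inr (j, e)))) M hM)⟩),
      Finset.mem_univ _, ?_⟩
    ext v
    rcases v with v | ⟨v, e⟩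
    · rfl
    · rfl
  have h1 : ∑ t : Fin n → S → Fin (D + 1), (∑ s : Fin l → Fin (D + 1),
      ((p.coeff (expoB (s, t)) : QB) : ℂ) * Complex.exp (∑ i, ((s i : ℕ) : ℂ) * α i)) *
      ∏ j, ∏ e, y j e ^ (t j e : ℕ) = 0 := by
    rw [← h0, MvPolynomial.aeval_def, MvPolynomial.eval₂_eq']
    rw [Finset.sum_subset hsupp (by
      intro M _ hM
      rw [MvPolynomial.notMem_support_iff.1 hM, map_zero, zero_mul])]
    rw [Finset.sum_image (fun a _ b _ h => expoB_injective h), Fintype.sum_prod_type_right]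
    refine Finset.sum_congr rfl fun t _ => ?_
    rw [Finset.sum_mul]
    refine Finset.sum_congr rfl fun s _ => ?_
    rw [mul_assoc]
    refine congrArg (fun z => ((p.coeff (expoB (s, t)) : QB) : ℂ) * z) ?_
    rw [Fintype.prod_sum_type, Fintype.prod_prod_type]
    refine congrArg (fun z => z * ∏ j, ∏ e, y j e ^ (t j e : ℕ)) ?_
    rw [Complex.exp_sum]
    refine Finset.prod_congr rfl fun i _ => ?_
    rw [Complex.exp_nat_mul]
    rfl
  have h2 := h _ (fun t => Submodule.sum_mem _ fun s _ => by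
    have h3 := Submodule.smul_mem (expSpan D α) (p.coeff (expoB (s, t)))
      (Submodule.subset_span (Set.mem_range_self s))
    rw [Algebra.smul_def] at h3
    exact h3) h1
  have h4 : ∀ (s : Fin l → Fin (D + 1)) (t : Fin n → S → Fin (D + 1)),
      p.coeff (expoB (s, t)) = 0 := by
    intro s t
    have h5 := Pool.Agent.H340R2.LW.lindemann_weierstrass
      (Finset.univ : Finset (Fin l → Fin (D + 1)))
      (fun s => ∑ i, ((s i : ℕ) : ℂ) * α i) (fun s => ((p.coeff (expoB (s, t)) : QB) : ℂ))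
      (fun s _ => mem_QB.1 (sum_mem fun i _ => mul_mem (natCast_mem QB _) (mem_QB.2 (hα i))))
      (fun s _ => mem_QB.1 (p.coeff (expoB (s, t))).2) (by
        intro s _ s' _ hss
        have h6 := Fintype.linearIndependent_iff.1 hli
          (fun i => ((s i : ℕ) : ℚ) - ((s' i : ℕ) : ℚ)) (by
            have h7 : ∑ i, ((s i : ℕ) : ℂ) * α i - ∑ i, ((s' i : ℕ) : ℂ) * α i = 0 :=
              sub_eq_zero.2 hss
            rw [← Finset.sum_sub_distrib] at h7
            rw [← h7]
            refine Finset.sum_congr rfl fun i _ => ?_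
            rw [Rat.smul_def]
            push_cast
            ring)
        funext i
        have h8 := h6 i
        have h9 : ((s i : ℕ) : ℚ) = ((s' i : ℕ) : ℚ) := sub_eq_zero.1 h8
        exact Fin.ext (by exact_mod_cast h9))
      (h2 t) s (Finset.mem_univ _)
    exact Subtype.ext h5
  ext1 M
  rw [MvPolynomial.coeff_zero]
  by_cases hM : M ∈ p.support
  · obtain ⟨s, _, rfl⟩ := Finset.mem_image.1 (hsupp hM)
    exact h4 s.1 s.2
  · exact MvPolynomial.notMem_support_iff.1 hM

/-- The indices of the blocks. -/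
def reidx (l n d : ℕ) : Fin l ⊕ (Fin n ⊕ Fin n × Fin d) → Fin l ⊕ (Fin n × Option (Fin d))
  | Sum.inl i => Sum.inl i
  | Sum.inr (Sum.inl j) => Sum.inr (j, none)
  | Sum.inr (Sum.inr (j, i)) => Sum.inr (j, some i)

theorem reidx_injective (l n d : ℕ) : Function.Injective (reidx l n d) := by
  intro u v h
  rcases u with u | u | ⟨u, u'⟩ <;> rcases v with v | v | ⟨v, v'⟩ <;>
    simp only [reidx, Sum.inl.injEq, Sum.inr.injEq, Prod.mk.injEq, reduceCtorEq, and_false,
      Option.some.injEq, and_true] at h ⊢ <;> exact h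

open Classical in
/-- **Main result.** -/
theorem result (l n d D : ℕ) : ∃ (k₀ C : ℕ) (δ : ℝ), 0 < δ ∧ ∀ k ≥ k₀, ∀ A : Finset ℚ, A.Nonempty →
    ∀ α : Fin l → ℂ, (∀ i, IsAlgebraic ℚ (α i)) → LinearIndependent ℚ α →
    ∀ x : Fin n → Fin d → ℂ, (∀ j, LinearIndependent ℚ (Fin.cons 1 (x j) : Fin (d + 1) → ℂ)) →
    ∀ lam : Fin n → Fin k → ℂ, (∀ j i, IsAlgebraic ℚ (Complex.exp (lam j i))) →
    (∀ j, LinearIndependent ℚ (lam j)) → ∀ (ζ : Fin n → ℂ) (ξ : Fin n → Fin d → ℂ),
    (((Fintype.piFinset fun _ : Fin n => Fintype.piFinset fun _ : Fin k => A).filter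
      (fun a : Fin n → Fin k → ℚ => ¬ NoRelation D (numbers α x lam ζ ξ a))).card : ℝ) ≤
      C * (A.card : ℝ) ^ ((n * k : ℝ) - δ * k) := by
  obtain ⟨N, hN⟩ : ∃ N, N = (D + 1) ^ l := ⟨_, rfl⟩
  obtain ⟨k₀, C, δ, hδ, h⟩ := log1 d (N * ((D + 1) ^ (d + 1)) ^ n) D
  refine ⟨k₀, n * C, δ, hδ, fun k hk A hA α hα hli x hx lam halg hlam ζ ξ => ?_⟩
  obtain ⟨hf, hr⟩ := expSpan_finite D α
  refine le_trans (Nat.cast_le.2 (Finset.card_le_card ?_))
    (several (E := Option (Fin d) → Fin (D + 1)) (N₀ := N * ((D + 1) ^ (d + 1)) ^ n)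
      (by rw [Fintype.card_fun, Fintype.card_option, Fintype.card_fin, Fintype.card_fin])
      hA (expSpan D α) hf (hr.trans hN.ge)
      (fun j p e => ∏ s, (s.elim (ζ j + ∑ r, (p r : ℂ) * lam j r)
        (fun l => Complex.exp (ξ j l + x j l * ∑ r, (p r : ℂ) * lam j r))) ^ (e s : ℕ))
      (fun j W' hW' hWN' => h k hk (x j) (lam j) (hx j) (hlam j) (halg j) A hA W' hW' hWN'
        (ζ j) (ξ j)))
  intro a ha
  rw [Finset.mem_filter] at ha ⊢
  refine ⟨ha.1, fun hI => ha.2 fun p hdeg h0 => ?_⟩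
  have hinj := reidx_injective l n d
  have h1 := no_relation_blocks α hα hli (fun (j : Fin n) (s : Option (Fin d)) =>
    s.elim (ζ j + ∑ r, (a j r : ℂ) * lam j r)
      (fun l => Complex.exp (ξ j l + x j l * ∑ r, (a j r : ℂ) * lam j r))) hI
    (MvPolynomial.rename (reidx l n d) p) (by
      intro i
      by_cases hi : ∃ u, reidx l n d u = i
      · obtain ⟨u, rfl⟩ := hi
        rw [MvPolynomial.degreeOf_rename_of_injective hinj]
        exact hdeg u
      · rw [MvPolynomial.degreeOf_le_iff]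
        intro M hM
        rw [MvPolynomial.support_rename_of_injective hinj, Finset.mem_image] at hM
        obtain ⟨M', _, rfl⟩ := hM
        rw [Finsupp.mapDomain_of_notMem_range _ _ (by
          rintro ⟨u, hu⟩
          exact hi ⟨u, hu⟩)]
        exact Nat.zero_le _) (by
      rw [MvPolynomial.aeval_rename, ← h0]
      congr 2
      funext u
      rcases u with u | u | ⟨u, u'⟩ <;> rfl)
  exact MvPolynomial.rename_injective _ hinj (by rw [h1, map_zero])

end Pool.Agent.Results.MP_c82530_nt.RandomMultiplesOfLogarithms
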